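import Mathlib

/-!
Subgroups `H` of `(ZMod m)^n` in which every nonzero element has a coordinate in a given set `B`.
-/

namespace Pool.Agent.H558Cap

open Polynomial Finset

/-- sums of products of shifted characters are divisible by the order of the group. -/
lemma sum_dvd {G ι : Type*} [AddCommGroup G] [Fintype G] [DecidableEq ι] (s : Finset ι)
    (ξ : ι → AddChar G ℂ) (c : ι → ℂ) (hc : ∀ i, IsIntegral ℤ (c i)) :
    ∀ ψ : AddChar G ℂ, ∃ z : ℂ, IsIntegral ℤ z ∧
      ∑ x, (∏ i ∈ s, (ξ i x - c i)) * ψ x = Fintype.card G * z := by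
  classical
  induction s using Finset.induction_on with
  | empty =>
    intro ψ
    simp only [Finset.prod_empty, one_mul]
    rw [AddChar.sum_eq_ite]
    split_ifs
    · exact ⟨1, isIntegral_one, by simp⟩
    · exact ⟨0, isIntegral_zero, by simp⟩
  | insert i s hi ih =>
    intro ψ
    obtain ⟨z1, h1, e1⟩ := ih (ξ i * ψ)
    obtain ⟨z2, h2, e2⟩ := ih ψ
    refine ⟨z1 - c i * z2, h1.sub ((hc i).mul h2), ?_⟩
    have : ∀ x, (∏ j ∈ insert i s, (ξ j x - c j)) * ψ x
        = (∏ j ∈ s, (ξ j x - c j)) * (ξ i * ψ) x - c i * ((∏ j ∈ s, (ξ j x - c j)) * ψ x) := by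
      intro x
      rw [Finset.prod_insert hi, AddChar.mul_apply]
      ring
    simp only [this]
    rw [Finset.sum_sub_distrib, ← Finset.mul_sum, e1, e2]
    ring

variable {m n : ℕ} [NeZero m]

/-- the product over `B` of `1 - e(k c)` raised to the `n`-th power is divisible by `|H|`. -/
lemma dvd_unit (B : Finset (ZMod m)) (H : AddSubgroup (Fin n → ZMod m))
    (hH : ∀ x ∈ H, x ≠ 0 → ∃ i, x i ∈ B) (k : ZMod m) :
    ∃ z : ℂ, IsIntegral ℤ z ∧
      (∏ c ∈ B, (1 - ZMod.stdAddChar (N := m) (k * c))) ^ n = (Nat.card H : ℂ) * z := by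
  classical
  have : Fintype H := Fintype.ofFinite H
  let φ : Fin n → (H →+ ZMod m) := fun i =>
    (AddMonoidHom.mulLeft k).comp ((Pi.evalAddMonoidHom (fun _ => ZMod m) i).comp H.subtype)
  let ξ : Fin n × ZMod m → AddChar H ℂ := fun ic => (ZMod.stdAddChar (N := m)).compAddMonoidHom (φ ic.1)
  have hint : ∀ ic : Fin n × ZMod m, IsIntegral ℤ (ZMod.stdAddChar (N := m) (k * ic.2)) := by
    intro ic
    refine IsIntegral.of_pow (n := m) (NeZero.pos m) ?_
    rw [← AddChar.map_nsmul_eq_pow]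
    have : m • (k * ic.2) = 0 := by
      rw [nsmul_eq_mul, CharP.cast_eq_zero, zero_mul]
    rw [this, AddChar.map_zero_eq_one]
    exact isIntegral_one
  obtain ⟨z, hz, e⟩ := sum_dvd (univ ×ˢ B) ξ (fun ic => ZMod.stdAddChar (N := m) (k * ic.2)) hint 1
  refine ⟨z, hz, ?_⟩
  rw [Nat.card_eq_fintype_card, ← e]
  rw [Finset.sum_eq_single (0 : H)]
  · rw [AddChar.one_apply, mul_one]
    rw [Finset.prod_product]
    simp only [AddChar.map_zero_eq_one]
    rw [Finset.prod_const, Finset.card_univ, Fintype.card_fin]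
  · intro x _ hx
    obtain ⟨i, hi⟩ := hH x.1 x.2 (fun h => hx (Subtype.ext h))
    rw [AddChar.one_apply, mul_one]
    refine Finset.prod_eq_zero (i := (i, x.1 i)) (by simp [hi]) ?_
    have : ξ (i, x.1 i) x = ZMod.stdAddChar (N := m) (k * x.1 i) := rfl
    rw [this, sub_self]
  · intro h; exact absurd (Finset.mem_univ _) h

/-- the product of `1 - ζ` over the primitive `d`-th roots of unity, indexed by units. -/
lemma prod_units (d : ℕ) [NeZero d] (ζ : ℂ) (hζ : IsPrimitiveRoot ζ d) :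
    ∏ u : (ZMod d)ˣ, (1 - ζ ^ (u : ZMod d).val) = (((cyclotomic d ℤ).eval 1 : ℤ) : ℂ) := by
  have hd : 0 < d := NeZero.pos d
  have h1 : (((cyclotomic d ℤ).eval 1 : ℤ) : ℂ) = (cyclotomic d ℂ).eval 1 := by
    have := cyclotomic.eval_apply (1 : ℤ) d (Int.castRingHom ℂ)
    simpa using this.symm
  rw [h1, cyclotomic_eq_prod_X_sub_primitiveRoots hζ, eval_prod]
  simp only [eval_sub, eval_X, eval_C]
  refine Finset.prod_bij (fun u _ => ζ ^ (u : ZMod d).val) ?_ ?_ ?_ ?_
  · intro u _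
    rw [mem_primitiveRoots hd]
    exact hζ.pow_of_coprime _ (ZMod.val_coe_unit_coprime u)
  · intro u _ v _ h
    have := hζ.pow_inj (ZMod.val_lt _) (ZMod.val_lt _) h
    exact Units.ext (ZMod.val_injective d this)
  · intro μ hμ
    rw [mem_primitiveRoots hd] at hμ
    obtain ⟨i, hi, hc, he⟩ := (hζ.isPrimitiveRoot_iff).1 hμ
    refine ⟨ZMod.unitOfCoprime i hc, Finset.mem_univ _, ?_⟩
    rw [ZMod.coe_unitOfCoprime, ZMod.val_natCast, Nat.mod_eq_of_lt hi, he]
  · intro u _; rfl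

lemma fiber_card {d : ℕ} [NeZero d] (hd : d ∣ m) (v : (ZMod d)ˣ) :
    (univ.filter (fun k : (ZMod m)ˣ => ZMod.unitsMap hd k = v)).card = Nat.totient m / Nat.totient d := by
  classical
  have hs := ZMod.unitsMap_surjective hd
  have h1 : ∀ w : (ZMod d)ˣ, (univ.filter (fun k : (ZMod m)ˣ => ZMod.unitsMap hd k = w)).card
      = (univ.filter (fun k : (ZMod m)ˣ => ZMod.unitsMap hd k = v)).card := by
    intro w
    exact MonoidHom.card_fiber_eq_of_mem_range (ZMod.unitsMap hd) (hs w) (hs v)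
  have h2 : Fintype.card (ZMod m)ˣ = ∑ w : (ZMod d)ˣ,
      (univ.filter (fun k : (ZMod m)ˣ => ZMod.unitsMap hd k = w)).card := by
    rw [← Finset.card_univ]
    exact Finset.card_eq_sum_card_fiberwise (fun _ _ => Finset.mem_univ _)
  rw [Finset.sum_congr rfl (fun w _ => h1 w), Finset.sum_const, Finset.card_univ,
    ZMod.card_units_eq_totient, ZMod.card_units_eq_totient, smul_eq_mul] at h2
  rw [h2, Nat.mul_div_cancel_left _ (Nat.totient_pos.2 (NeZero.pos d))]

lemma prod_conj (c : ZMod m) :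
    ∏ k : (ZMod m)ˣ, (1 - ZMod.stdAddChar (N := m) ((k : ZMod m) * c))
      = (((cyclotomic (addOrderOf c) ℤ).eval 1 : ℤ) : ℂ) ^ (Nat.totient m / Nat.totient (addOrderOf c)) := by
  classical
  set d := addOrderOf c with hdd
  have hdm : d ∣ m := by
    have := addOrderOf_dvd_card (x := c)
    rwa [ZMod.card] at this
  have : NeZero d := ⟨(addOrderOf_pos c).ne'⟩
  set ζ : ℂ := ZMod.stdAddChar (N := m) c with hζd
  have hζ : IsPrimitiveRoot ζ d := by
    refine ⟨?_, ?_⟩
    · rw [hζd, ← AddChar.map_nsmul_eq_pow, hdd, addOrderOf_nsmul_eq_zero, AddChar.map_zero_eq_one]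
    · intro l hl
      rw [hζd, ← AddChar.map_nsmul_eq_pow] at hl
      rw [hdd]
      refine addOrderOf_dvd_of_nsmul_eq_zero ?_
      exact ZMod.injective_stdAddChar (hl.trans (AddChar.map_zero_eq_one _).symm)
  have key : ∀ k : (ZMod m)ˣ, 1 - ZMod.stdAddChar (N := m) ((k : ZMod m) * c)
      = (fun u : (ZMod d)ˣ => 1 - ζ ^ (u : ZMod d).val) (ZMod.unitsMap hdm k) := by
    intro k
    simp only
    congr 1
    have e1 : (k : ZMod m) * c = (k : ZMod m).val • c := by
      rw [nsmul_eq_mul, ZMod.natCast_zmod_val]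
    rw [e1, AddChar.map_nsmul_eq_pow]
    have e2 : (((ZMod.unitsMap hdm k : (ZMod d)ˣ) : ZMod d)).val = (k : ZMod m).val % d := by
      rw [ZMod.unitsMap_val]
      rw [ZMod.cast_eq_val, ZMod.val_natCast]
    rw [e2, ← hζd]
    have e3 := pow_mod_orderOf ζ (k : ZMod m).val
    rw [← hζ.eq_orderOf] at e3
    exact e3.symm
  rw [Finset.prod_congr rfl (fun k _ => key k)]
  rw [Finset.prod_comp (fun u : (ZMod d)ˣ => 1 - ζ ^ (u : ZMod d).val) (ZMod.unitsMap hdm)]
  have himg : Finset.image (ZMod.unitsMap hdm) univ = univ :=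
    Finset.image_univ_of_surjective (ZMod.unitsMap_surjective hdm)
  rw [himg]
  have : ∀ v ∈ (univ : Finset (ZMod d)ˣ), (1 - ζ ^ (v : ZMod d).val) ^
      (univ.filter (fun k : (ZMod m)ˣ => ZMod.unitsMap hdm k = v)).card
      = (1 - ζ ^ (v : ZMod d).val) ^ (Nat.totient m / Nat.totient d) := by
    intro v _
    rw [fiber_card hdm v]
  rw [Finset.prod_congr rfl this, Finset.prod_pow, prod_units d ζ hζ]

/-- **Main divisibility.** If every nonzero element of the subgroup `H` of `(ZMod m)^n` has a coordinate in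
`B`, then `|H|^φ(m)` divides `(∏_{c ∈ B} Φ_{ord c}(1)^{φ(m)/φ(ord c)})^n`. -/
theorem card_pow_dvd (B : Finset (ZMod m)) (H : AddSubgroup (Fin n → ZMod m))
    (hH : ∀ x ∈ H, x ≠ 0 → ∃ i, x i ∈ B) :
    ((Nat.card H : ℤ)) ^ Nat.totient m ∣
      (∏ c ∈ B, ((cyclotomic (addOrderOf c) ℤ).eval 1) ^ (Nat.totient m / Nat.totient (addOrderOf c))) ^ n := by
  classical
  choose z hz hz' using fun k : (ZMod m)ˣ => dvd_unit B H hH (k : ZMod m)
  set A : ℤ := (∏ c ∈ B, ((cyclotomic (addOrderOf c) ℤ).eval 1) ^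
    (Nat.totient m / Nat.totient (addOrderOf c))) ^ n with hA
  set Z : ℂ := ∏ k : (ZMod m)ˣ, z k with hZ
  have hZi : IsIntegral ℤ Z := IsIntegral.prod _ (fun k _ => hz k)
  have h1 : (A : ℂ) = (Nat.card H : ℂ) ^ Nat.totient m * Z := by
    have e1 : ∏ k : (ZMod m)ˣ, (∏ c ∈ B, (1 - ZMod.stdAddChar (N := m) ((k : ZMod m) * c))) ^ n
        = (Nat.card H : ℂ) ^ Nat.totient m * Z := by
      rw [Finset.prod_congr rfl (fun k _ => hz' k), Finset.prod_mul_distrib, Finset.prod_const,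
        Finset.card_univ, ZMod.card_units_eq_totient]
    rw [← e1, Finset.prod_pow, Finset.prod_comm, hA]
    push_cast
    congr 1
    exact Finset.prod_congr rfl (fun c _ => (prod_conj c).symm)
  have hcard : (Nat.card H : ℚ) ^ Nat.totient m ≠ 0 := by
    have : 0 < Nat.card H := Nat.card_pos
    positivity
  have h2 : Z = algebraMap ℚ ℂ ((A : ℚ) / (Nat.card H : ℚ) ^ Nat.totient m) := by
    have hc' : (Nat.card H : ℂ) ^ Nat.totient m ≠ 0 := by
      have : (Nat.card H : ℂ) ≠ 0 := by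
        have : 0 < Nat.card H := Nat.card_pos
        exact_mod_cast this.ne'
      exact pow_ne_zero _ this
    rw [eq_ratCast]
    push_cast
    rw [h1]
    field_simp
  rw [h2] at hZi
  have h3 : IsIntegral ℤ ((A : ℚ) / (Nat.card H : ℚ) ^ Nat.totient m) :=
    (isIntegral_algebraMap_iff (algebraMap ℚ ℂ).injective).1 hZi
  obtain ⟨y, hy⟩ := (IsIntegrallyClosed.isIntegral_iff (R := ℤ) (K := ℚ)).1 h3
  refine ⟨y, ?_⟩
  rw [eq_div_iff hcard] at hy
  have : ((A : ℤ) : ℚ) = (((Nat.card H : ℤ) ^ Nat.totient m * y : ℤ) : ℚ) := by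
    push_cast
    rw [← hy]
    simp [mul_comm]
  exact_mod_cast this

end Pool.Agent.H558Cap
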