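import Mathlib

/-!
Subgroup codes of fraction graphs whose number of vertices has only small prime power divisors.
-/

namespace Pool.Agent.H558Cap

open Finset

/-- a nonzero element has a coordinate equal to `a / 2`. -/
lemma half_coord {a b p q n : ℕ} (ha : 0 < a) (hb : 0 < b) (hpq : 2 * q < p) (hab : a * q = b * p)
    (h1 : ∀ l : ℕ, l.Prime → l ∣ a → l * (p - 2 * q) < p) (h2 : ∀ j : ℕ, 2 ^ j ∣ a → 2 ^ j * (p - 2 * q) < 2 * p)
    (H : AddSubgroup (Fin n → ZMod a)) (hH : ∀ x ∈ H, x ≠ 0 → ∃ i, b ≤ (x i).val ∧ b ≤ (-x i).val)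
    (x : Fin n → ZMod a) (hx : x ∈ H) (hx0 : x ≠ 0) : ∃ i, 2 * (x i).val = a := by
  classical
  have : NeZero a := ⟨ha.ne'⟩
  obtain ⟨r, rfl⟩ : ∃ r, p = 2 * q + r := ⟨p - 2 * q, by omega⟩
  have hr : 0 < r := by omega
  have er : 2 * q + r - 2 * q = r := by omega
  rw [er] at h1 h2
  -- no odd prime divides the order
  have hodd : ∀ l : ℕ, l.Prime → l ∣ Nat.card H → l = 2 := by
    intro l hl hdiv
    by_contra hl2
    have := Fact.mk hl
    obtain ⟨y, hy⟩ := exists_prime_addOrderOf_dvd_card' l hdiv
    have hy0 : (y : Fin n → ZMod a) ≠ 0 := by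
      intro h
      have : y = 0 := Subtype.ext h
      rw [this, addOrderOf_zero] at hy
      exact hl.one_lt.ne hy
    obtain ⟨i, hi1, hi2⟩ := hH y y.2 hy0
    set c : ZMod a := (y : Fin n → ZMod a) i with hc
    have hlc : ((l * c.val : ℕ) : ZMod a) = 0 := by
      have e1 : l • y = 0 := by rw [← hy]; exact addOrderOf_nsmul_eq_zero y
      have e2 : l • (y : Fin n → ZMod a) = 0 := by
        have := congrArg (Subtype.val) e1
        simpa using this
      have e3 := congrFun e2 i
      rw [Pi.smul_apply, Pi.zero_apply, nsmul_eq_mul] at e3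
      push_cast
      rw [ZMod.natCast_zmod_val]
      exact e3
    rw [ZMod.natCast_eq_zero_iff] at hlc
    obtain ⟨t, ht⟩ := hlc
    have hc0 : c ≠ 0 := by
      intro h; rw [h, ZMod.val_zero] at hi1; omega
    have hneg : (-c).val = a - c.val := by
      have := ZMod.neg_val c
      rw [this, if_neg hc0]
    have hva : c.val < a := ZMod.val_lt c
    rw [hneg] at hi2
    -- l v = a t, 0 < t < l
    have ht0 : 0 < t := by
      rcases Nat.eq_zero_or_pos t with h | h
      · rw [h, mul_zero] at ht
        have : c.val = 0 := by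
          rcases Nat.mul_eq_zero.1 ht with h' | h'
          · exact absurd h' hl.ne_zero
          · exact h'
        omega
      · exact h
    have htl : t < l := by
      by_contra hcon
      push Not at hcon
      have : a * l ≤ a * t := Nat.mul_le_mul_left _ hcon
      have h3 : l * c.val < l * a := Nat.mul_lt_mul_of_pos_left hva hl.pos
      rw [ht, Nat.mul_comm l a] at h3
      exact absurd (lt_of_lt_of_le h3 this) (lt_irrefl _)
    have hla : l ∣ a := by
      have : l ∣ a * t := ⟨c.val, ht.symm⟩
      rcases (hl.dvd_mul).1 this with h | h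
      · exact h
      · exact absurd (Nat.le_of_dvd ht0 h) (by omega)
    have hlt := h1 l hl hla
    have hlodd : l % 2 = 1 := by
      rcases hl.eq_two_or_odd with h | h
      · exact absurd h hl2
      · exact h
    -- 2 l b ≤ (l - 1) a
    have hkey : 2 * l * b + a ≤ l * a := by
      rcases Nat.lt_or_ge (2 * t) l with h | h
      · -- 2 t ≤ l - 1
        have h3 : 2 * t + 1 ≤ l := h
        have h4 : a * (2 * t + 1) ≤ a * l := Nat.mul_le_mul_left _ h3
        have h5 : l * b ≤ l * c.val := Nat.mul_le_mul_left _ hi1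
        rw [ht] at h5
        have e1 : a * (2 * t + 1) = 2 * (a * t) + a := by ring
        have e2 : 2 * l * b = 2 * (l * b) := by ring
        rw [e1, Nat.mul_comm a l] at h4
        rw [e2]
        generalize a * t = X at *
        generalize l * b = Y at *
        generalize l * a = Z at *
        omega
      · have h3 : l + 1 ≤ 2 * t := by omega
        have h4 : a * (l + 1) ≤ a * (2 * t) := Nat.mul_le_mul_left _ h3
        have h6 : b + c.val ≤ a := by omega
        have h5 : l * (b + c.val) ≤ l * a := Nat.mul_le_mul_left _ h6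
        rw [Nat.mul_add, ht] at h5
        have e1 : a * (2 * t) = 2 * (a * t) := by ring
        have e2 : 2 * l * b = 2 * (l * b) := by ring
        have e3 : a * (l + 1) = l * a + a := by ring
        rw [e1, e3] at h4
        rw [e2]
        generalize a * t = X at *
        generalize l * b = Y at *
        generalize l * a = Z at *
        omega
    -- contradiction
    have h7 : (2 * l * b + a) * (2 * q + r) ≤ l * a * (2 * q + r) := Nat.mul_le_mul_right _ hkey
    have h8 : (2 * l * b) * (2 * q + r) = 2 * l * (a * q) := by rw [hab]; ring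
    have h9 : 2 * l * (a * q) + a * (2 * q + r) ≤ l * a * (2 * q + r) := by
      rw [← h8]; linarith [h7, add_mul (2 * l * b) a (2 * q + r)]
    have h10 : a * (2 * q + r) ≤ a * (l * r) := by
      have e1 : l * a * (2 * q + r) = 2 * l * (a * q) + a * (l * r) := by ring
      rw [e1] at h9
      exact Nat.le_of_add_le_add_left h9
    have h11 := Nat.le_of_mul_le_mul_left h10 ha
    omega
  -- the order of `x` is a power of two
  obtain ⟨e, he⟩ : ∃ e, addOrderOf (⟨x, hx⟩ : H) = 2 ^ e := by
    have hcard : Nat.card H ≠ 0 := Nat.card_pos.ne'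
    have h3 : Nat.card H = 2 ^ (Nat.card H).primeFactorsList.length :=
      Nat.eq_prime_pow_of_unique_prime_dvd hcard (fun {l} hl hd => hodd l hl hd)
    have h4 : addOrderOf (⟨x, hx⟩ : H) ∣ 2 ^ (Nat.card H).primeFactorsList.length := by
      rw [← h3]; exact addOrderOf_dvd_natCard _
    obtain ⟨e, _, he⟩ := (Nat.dvd_prime_pow Nat.prime_two).1 h4
    exact ⟨e, he⟩
  have hex : 2 ^ e • x = 0 := by
    have := addOrderOf_nsmul_eq_zero (⟨x, hx⟩ : H)
    rw [he] at this
    have := congrArg Subtype.val this
    simpa using this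
  have hdiva : 2 ^ e ∣ a := by
    rw [← he, addOrderOf_dvd_iff_nsmul_eq_zero]
    apply Subtype.ext
    show a • x = 0
    funext i
    rw [Pi.smul_apply, nsmul_eq_mul, CharP.cast_eq_zero, zero_mul]; rfl
  have hlt := h2 e hdiva
  obtain ⟨i, hi1, hi2⟩ := hH x hx hx0
  refine ⟨i, ?_⟩
  set c : ZMod a := x i with hc
  have hc0 : c ≠ 0 := by
    intro h; rw [h, ZMod.val_zero] at hi1; omega
  have hneg : (-c).val = a - c.val := by
    have := ZMod.neg_val c
    rw [this, if_neg hc0]
  have hva : c.val < a := ZMod.val_lt c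
  rw [hneg] at hi2
  obtain ⟨u, hu⟩ := hdiva
  have h2c : a ∣ 2 ^ e * c.val := by
    rw [← ZMod.natCast_eq_zero_iff]
    have e3 := congrFun hex i
    rw [Pi.smul_apply, Pi.zero_apply, nsmul_eq_mul] at e3
    push_cast
    rw [ZMod.natCast_zmod_val]
    push_cast at e3
    exact e3
  have huv : u ∣ c.val := by
    obtain ⟨t, ht⟩ := h2c
    refine ⟨t, ?_⟩
    have h12 : 2 ^ e * c.val = 2 ^ e * (u * t) := by
      calc 2 ^ e * c.val = a * t := ht
        _ = (2 ^ e * u) * t := by rw [← hu]
        _ = 2 ^ e * (u * t) := Nat.mul_assoc _ _ _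
    exact Nat.eq_of_mul_eq_mul_left (by positivity) h12
  obtain ⟨t, ht⟩ := huv
  have hu0 : 0 < u := by
    rcases Nat.eq_zero_or_pos u with h | h
    · rw [h, mul_zero] at hu; omega
    · exact h
  -- `e ≥ 1`
  obtain ⟨e', rfl⟩ : ∃ e', e = e' + 1 := by
    rcases e with _ | e'
    · exfalso
      rw [pow_zero, one_mul] at hu
      rw [ht, hu] at hva
      have : t = 0 := by
        by_contra h
        have : u * 1 ≤ u * t := Nat.mul_le_mul_left _ (Nat.pos_of_ne_zero h)
        omega
      rw [this, mul_zero] at ht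
      omega
    · exact ⟨e', rfl⟩
  by_contra hne
  have h5 : 2 ^ (e' + 1) = 2 * 2 ^ e' := by rw [pow_succ]; ring
  set E := 2 ^ e' with hE
  have hE0 : 0 < E := by rw [hE]; positivity
  have haE : a = 2 * E * u := by rw [hu, h5]
  -- compare t with E
  have htE : t ≠ E := by
    intro h
    apply hne
    rw [ht, h, haE]; ring
  have hkey : b + u ≤ u * E := by
    rcases Nat.lt_or_ge t E with h | h
    · have h6 : u * (t + 1) ≤ u * E := Nat.mul_le_mul_left _ h
      rw [Nat.mul_add, Nat.mul_one] at h6
      rw [ht] at hi1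
      omega
    · have h6 : E + 1 ≤ t := by omega
      have h7 : u * (E + 1) ≤ u * t := Nat.mul_le_mul_left _ h6
      rw [Nat.mul_add, Nat.mul_one] at h7
      have h8 : a = 2 * (u * E) := by rw [haE]; ring
      rw [ht] at hi2
      omega
  rw [h5] at hlt
  have h8 : (b + u) * (2 * q + r) ≤ u * E * (2 * q + r) := Nat.mul_le_mul_right _ hkey
  have h9 : b * (2 * q + r) = 2 * (u * E * q) := by rw [← hab, haE]; ring
  have h10 : u * (2 * q + r) ≤ u * (E * r) := by
    have e1 : (b + u) * (2 * q + r) = b * (2 * q + r) + u * (2 * q + r) := Nat.add_mul _ _ _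
    have e2 : u * E * (2 * q + r) = 2 * (u * E * q) + u * (E * r) := by ring
    rw [e1, e2, h9] at h8
    exact Nat.le_of_add_le_add_left h8
  have h11 := Nat.le_of_mul_le_mul_left h10 hu0
  have h12 : 2 * E * r = 2 * (E * r) := by ring
  rw [h12] at hlt
  generalize E * r = Z at hlt h11
  omega

/-- such subgroups have at most `2 ^ n` elements. -/
lemma card_le_two_pow {a n : ℕ} (ha : 0 < a) (H : AddSubgroup (Fin n → ZMod a))
    (hH : ∀ x ∈ H, x ≠ 0 → ∃ i, 2 * (x i).val = a) : Nat.card H ≤ 2 ^ n := by
  classical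
  have : NeZero a := ⟨ha.ne'⟩
  let φ : H → (Fin n → Bool) := fun x i => decide (2 * ((x : Fin n → ZMod a) i).val < a)
  have hinj : Function.Injective φ := by
    intro x y hxy
    by_contra hne
    have hz : ((x : Fin n → ZMod a) - y) ≠ 0 := fun h => hne (Subtype.ext (sub_eq_zero.1 h))
    obtain ⟨i, hi⟩ := hH _ (H.sub_mem x.2 y.2) hz
    have hi' : 2 * ((x : Fin n → ZMod a) i - (y : Fin n → ZMod a) i).val = a := hi
    have h1 := congrFun hxy i
    simp only [φ, decide_eq_decide] at h1
    set X := (x : Fin n → ZMod a) i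
    set Y := (y : Fin n → ZMod a) i
    have hX : X = Y + (X - Y) := by ring
    have hval : X.val = (Y.val + (X - Y).val) % a := by
      conv_lhs => rw [hX]
      rw [ZMod.val_add]
    have hYa : Y.val < a := ZMod.val_lt Y
    rcases Nat.lt_or_ge (2 * Y.val) a with h | h
    · have h3 : X.val = Y.val + (X - Y).val := by
        rw [hval, Nat.mod_eq_of_lt (by omega)]
      have := h1.2 h
      omega
    · have h3 : X.val = Y.val + (X - Y).val - a := by
        rw [hval, Nat.mod_eq_sub_mod (by omega), Nat.mod_eq_of_lt (by omega)]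
      have : ¬ (2 * X.val < a) := fun h4 => by have := h1.1 h4; omega
      omega
  have := Nat.card_le_card_of_injective φ hinj
  simpa using this

end Pool.Agent.H558Cap
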